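import Pool.Agent.Work.MP_27e890_gt.Space

open Set Filter Topology

namespace Pool.Agent.Work.MP_27e890_gt

/-- The space: a generic subgroup together with a coset of the finitely supported sequences. -/
def XX (H : Submodule (ZMod 2) V) : Set V := (H : Set V) ∪ {v | v - z ∈ D0}

lemma D0_le_span : D0 ≤ Submodule.span (ZMod 2) D1 := fun _ hv =>
  Submodule.subset_span (Or.inl hv)

lemma z_mem_span : z ∈ Submodule.span (ZMod 2) D1 := Submodule.subset_span (Or.inr rfl)

variable {H : Submodule (ZMod 2) V}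

lemma disj (h1 : ∀ x ∈ H, x ∈ Submodule.span (ZMod 2) D1 → x = 0) {v : V} (hv : v ∈ H)
    (hv' : v - z ∈ D0) : False := by
  have h2 : v ∈ Submodule.span (ZMod 2) D1 := by
    have := Submodule.add_mem _ (D0_le_span hv') z_mem_span
    rwa [sub_add_cancel] at this
  have h3 := h1 v hv h2
  rw [h3, zero_sub, Submodule.neg_mem_iff] at hv'
  exact z_not_mem hv'

lemma XX_sub {v : V} (hv : v ∈ XX H) : v ∈ H ⊔ Submodule.span (ZMod 2) D1 := by
  rcases hv with hv | hv
  · exact (le_sup_left : H ≤ _) hv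
  · have h2 : v ∈ Submodule.span (ZMod 2) D1 := by
      have hv' : v - z ∈ D0 := hv
      have := Submodule.add_mem _ (D0_le_span hv') z_mem_span
      rwa [sub_add_cancel] at this
    exact (le_sup_right : _ ≤ H ⊔ Submodule.span (ZMod 2) D1) h2

lemma uncountable_cyl (y : V) (n : ℕ) : ¬ (cyl y n).Countable := by
  intro hc
  let φ : V → V := fun b i => if i < n then y i else b (i - n)
  have hφ : Function.Injective φ := by
    intro b b' h
    funext i
    have := congrFun h (i + n)
    simp only [φ] at this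
    rw [if_neg (by omega), if_neg (by omega), Nat.add_sub_cancel] at this
    exact this
  have hr : ∀ b, φ b ∈ cyl y n := fun b i hi => if_pos hi
  have h1 : (Set.univ : Set V).Countable := by
    have := hc.preimage_of_injOn (f := φ) hφ.injOn
    refine this.mono fun b _ => hr b
  have h2 : Cardinal.mk V ≤ Cardinal.aleph0 := by
    rw [← Cardinal.mk_univ]
    exact Cardinal.le_aleph0_iff_set_countable.mpr h1
  rw [mk_V] at h2
  exact absurd Cardinal.aleph0_lt_continuum (not_lt.mpr h2)

/-- points of `H` in a cylinder outside a given countable set -/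
lemma exists_mem_cyl
    (h2 : ∀ K : ℕ → Set V, (∀ n, IsClosed (K n)) → ¬ ({p : V | ∀ n, p ∉ K n}).Countable →
      ∃ p ∈ H, ∀ n, p ∉ K n) (y : V) (n : ℕ) {B : Set V} (hB : B.Countable) :
    ∃ p ∈ H, p ∈ cyl y n ∧ p ∉ B := by
  have hBz : (B ∪ {0}).Countable := hB.union (countable_singleton _)
  obtain ⟨e, he⟩ := hBz.exists_eq_range ⟨0, Or.inr rfl⟩
  let K : ℕ → Set V := fun k => Nat.casesOn k ((cyl y n)ᶜ) (fun j => {e j})
  have hK : ∀ k, IsClosed (K k) := by
    intro k
    cases k with
    | zero => exact (isOpen_cyl y n).isClosed_compl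
    | succ j => exact isClosed_singleton
  have hunc : ¬ ({p : V | ∀ k, p ∉ K k}).Countable := by
    intro hc
    apply uncountable_cyl y n
    refine (hc.union hBz).mono fun p hp => ?_
    by_cases hpB : p ∈ B ∪ {0}
    · exact Or.inr hpB
    · left
      intro k
      cases k with
      | zero => exact fun h => h hp
      | succ j =>
        intro h
        apply hpB
        rw [he]
        exact ⟨j, (mem_singleton_iff.mp h).symm⟩
  obtain ⟨p, hp, hpK⟩ := h2 K hK hunc
  refine ⟨p, hp, not_not.mp (hpK 0), fun hpB => ?_⟩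
  have : p ∈ B ∪ {0} := Or.inl hpB
  rw [he] at this
  obtain ⟨j, hj⟩ := this
  exact hpK (j + 1) hj.symm

/-- Rigidity: continuous injections of relatively open subsets of `XX H` into `XX H` are
identities. -/
theorem rigidity
    (h1 : ∀ x ∈ H, x ∈ Submodule.span (ZMod 2) D1 → x = 0)
    (h2 : ∀ K : ℕ → Set V, (∀ n, IsClosed (K n)) → ¬ ({p : V | ∀ n, p ∉ K n}).Countable →
      ∃ p ∈ H, ∀ n, p ∉ K n)
    (h3 : ∀ s t x m, Big (LimRel s t x m) →
      ∃ p ∈ H, ∃ q, q ∉ H ⊔ Submodule.span (ZMod 2) D1 ∧ LimRel s t x m p q)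
    {O : Set V} (hO : IsOpen O) {f : V → V} (hcont : ContinuousOn f (O ∩ XX H))
    (hinj : InjOn f (O ∩ XX H)) (hmaps : MapsTo f (O ∩ XX H) (XX H)) :
    ∀ u ∈ O ∩ XX H, f u = u := by
  intro x hx
  by_contra hne
  obtain ⟨i, hi⟩ := Function.ne_iff.mp hne
  -- a small cylinder around `x`
  obtain ⟨m, hmO, hmf⟩ : ∃ m, cyl x m ∩ XX H ⊆ O ∩ XX H ∧
      ∀ u ∈ cyl x m ∩ XX H, f u i ≠ u i := by
    have hc : f ⁻¹' (cyl (f x) (i + 1)) ∈ 𝓝[O ∩ XX H] x := (hcont x hx) (cyl_mem_nhds _ _)
    rw [mem_nhdsWithin_iff_exists_mem_nhds_inter] at hc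
    obtain ⟨u, hu, huA⟩ := hc
    obtain ⟨n, hn⟩ := exists_cyl_subset (Filter.inter_mem hu (hO.mem_nhds hx.1))
    refine ⟨max n (i + 1), ?_, ?_⟩
    · rintro v ⟨hv, hvX⟩
      exact ⟨(hn (cyl_anti (le_max_left _ _) hv)).2, hvX⟩
    · rintro v ⟨hv, hvX⟩
      have hv1 := hn (cyl_anti (le_max_left _ _) hv)
      have hv2 : f v ∈ cyl (f x) (i + 1) := huA ⟨hv1.1, hv1.2, hvX⟩
      rw [hv2 i (Nat.lt_succ_self i), hv i (lt_of_lt_of_le (Nat.lt_succ_self i) (le_max_right _ _))]
      exact hi
  set A := cyl x m ∩ XX H with hA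
  have hAcont : ContinuousOn f A := hcont.mono hmO
  have hAinj : InjOn f A := hinj.mono hmO
  have hxA : x ∈ A := ⟨mem_cyl_self x m, hx.2⟩
  by_cases hg : ∀ y ∈ A, ∀ m, ∃ u ∈ A, u ∈ cyl y m ∧ f u - u ≠ f y - y
  · -- generic case
    haveI : Nonempty A := ⟨⟨x, hxA⟩⟩
    obtain ⟨s0, hs0⟩ := TopologicalSpace.exists_dense_seq A
    let s : ℕ → V := fun k => s0 k
    have hsA : ∀ k, s k ∈ A := fun k => (s0 k).2
    have hs : A ⊆ closure (Set.range s) := by
      intro y hy
      have h4 : (⟨y, hy⟩ : A) ∈ closure (Set.range s0) := hs0 _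
      have h5 := image_closure_subset_closure_image (continuous_subtype_val (p := (· ∈ A)))
        (Set.mem_image_of_mem _ h4)
      rw [← Set.range_comp] at h5
      exact h5
    have hbig := big_limRel ⟨x, hxA⟩ hAcont hAinj hg (x := x) (m := m) inter_subset_left hsA hs
    obtain ⟨p, hp, q, hq, hpx, hpcl, hlim⟩ := h3 _ _ _ _ hbig
    have hpA : p ∈ A := ⟨hpx, Or.inl hp⟩
    have hnb : NeBot (comap s (𝓝 p)) := by
      apply Filter.comap_neBot
      intro t ht
      obtain ⟨u, hu, k, rfl⟩ := mem_closure_iff_nhds.mp hpcl t ht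
      exact ⟨k, hu⟩
    have hts : Tendsto s (comap s (𝓝 p)) (𝓝[A] p) :=
      tendsto_nhdsWithin_iff.mpr ⟨tendsto_comap, Eventually.of_forall hsA⟩
    have htf : Tendsto (fun k => f (s k)) (comap s (𝓝 p)) (𝓝 (f p)) :=
      (hAcont p hpA).tendsto.comp hts
    have heq : q = f p := tendsto_nhds_unique hlim htf
    apply hq
    rw [heq]
    exact XX_sub (hmaps (hmO hpA))
  · -- local translation case
    push Not at hg
    obtain ⟨y, hyA, m', hm'⟩ := hg
    set σ := f y - y with hσ
    set M := max m' m with hM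
    have hCA : ∀ u ∈ XX H, u ∈ cyl y M → u ∈ A := fun u hu huc =>
      ⟨cyl_trans hyA.1 (cyl_anti (le_max_right _ _) huc), hu⟩
    have hf : ∀ u ∈ XX H, u ∈ cyl y M → f u = u + σ := by
      intro u hu huc
      have := hm' u (hCA u hu huc) (cyl_anti (le_max_left _ _) huc)
      rw [← this]; abel
    have hσ0 : σ ≠ 0 := by
      intro h0
      have := hmf y hyA
      rw [hσ, sub_eq_zero] at h0
      rw [h0] at this
      exact this rfl
    -- a point of `H` whose image is in `H`
    have hBc : ({v : V | v + σ - z ∈ D0}).Countable := by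
      have hinjz : Function.Injective (fun v : V => v + σ - z) := by
        intro v v' h
        simpa using h
      exact countable_D0.preimage_of_injOn hinjz.injOn
    obtain ⟨p, hpH, hpc, hpB⟩ := exists_mem_cyl h2 y M hBc
    have hpX : p ∈ XX H := Or.inl hpH
    have hfp : p + σ ∈ XX H := by
      rw [← hf p hpX hpc]
      exact hmaps (hmO (hCA p hpX hpc))
    have hσH : σ ∈ H := by
      rcases hfp with h | h
      · have := Submodule.sub_mem H h hpH
        rwa [add_sub_cancel_left] at this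
      · exact absurd h hpB
    -- a point of the coset
    obtain ⟨d, hd, hdc⟩ := exists_D0_mem_cyl (y - z) M
    have hvc : d + z ∈ cyl y M := by
      intro j hj
      have := hdc j hj
      simp only [Pi.add_apply, Pi.sub_apply] at this ⊢
      rw [this]; abel
    have hvX : d + z ∈ XX H := Or.inr (by
      show d + z - z ∈ D0
      rwa [add_sub_cancel_right])
    have hfv : d + z + σ ∈ XX H := by
      rw [← hf _ hvX hvc]
      exact hmaps (hmO (hCA _ hvX hvc))
    rcases hfv with h | h
    · have h4 : d + z ∈ H := by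
        have := Submodule.sub_mem H h hσH
        rwa [add_sub_cancel_right] at this
      exact disj h1 h4 (by rwa [add_sub_cancel_right])
    · have h4 : σ ∈ D0 := by
        have h5 : d + z + σ - z ∈ D0 := h
        have := Submodule.sub_mem D0 h5 hd
        have h6 : d + z + σ - z - d = σ := by abel
        rwa [h6] at this
      exact hσ0 (h1 σ hσH (D0_le_span h4))

/-- A set with empty interior condition: some closed set of a countable cover contains a
relatively open piece. -/
theorem exists_open_piece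
    (h2 : ∀ K : ℕ → Set V, (∀ n, IsClosed (K n)) → ¬ ({p : V | ∀ n, p ∉ K n}).Countable →
      ∃ p ∈ H, ∀ n, p ∉ K n)
    (K : ℕ → Set V) (hK : ∀ n, IsClosed (K n)) (hcov : XX H ⊆ ⋃ n, K n) :
    ∃ n, (interior (K n)).Nonempty := by
  have hc : ({p : V | ∀ n, p ∉ K n}).Countable := by
    by_contra hunc
    obtain ⟨p, hp, hpK⟩ := h2 K hK hunc
    obtain ⟨n, hn⟩ := mem_iUnion.mp (hcov (Or.inl hp))
    exact hpK n hn
  set G : Set V := {p : V | ∀ n, p ∉ K n} with hG
  haveI : Countable G := hc.to_subtype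
  let F : ℕ ⊕ G → Set V := fun i => Sum.casesOn i K (fun g => {g.1})
  have hF : ∀ i, IsClosed (F i) := by
    intro i
    rcases i with n | g
    · exact hK n
    · exact isClosed_singleton
  have hU : ⋃ i, F i = univ := by
    ext p
    simp only [mem_iUnion, mem_univ, iff_true]
    by_cases hp : p ∈ G
    · exact ⟨Sum.inr ⟨p, hp⟩, rfl⟩
    · simp only [hG, mem_ofPred_eq, not_forall, not_not] at hp
      obtain ⟨n, hn⟩ := hp
      exact ⟨Sum.inl n, hn⟩
  obtain ⟨i, hi⟩ := nonempty_interior_of_iUnion_of_closed hF hU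
  rcases i with n | g
  · exact ⟨n, hi⟩
  · exfalso
    obtain ⟨p, hp⟩ := hi
    obtain ⟨n, hn⟩ := exists_cyl_subset (mem_interior_iff_mem_nhds.mp hp)
    apply uncountable_cyl p n
    exact (countable_singleton g.1).mono hn

end Pool.Agent.Work.MP_27e890_gt
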