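import Mathlib

open Cardinal Set

namespace Pool.Agent.Work.MP_27e890_gt

section

variable {V : Type} [AddCommGroup V] [Module (ZMod 2) V]

/-- A relation is big if it has pairs avoiding every set of cardinality `< #V`. -/
def Big (R : V → V → Prop) : Prop :=
  ∀ W : Set V, #W < #V → ∃ p q, R p q ∧ p ∉ W ∧ q ∉ W ∧ q - p ∉ W

lemma mk_span_lt (hV : ℵ₀ < #V) (S : Set V) (hS : #S < #V) :
    #(Submodule.span (ZMod 2) S : Set V) < #V := by
  have h1 : #(Submodule.span (ZMod 2) S : Set V) ≤ #(S →₀ ZMod 2) := by
    have : (Submodule.span (ZMod 2) S : Set V) ⊆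
        Set.range (Finsupp.linearCombination (ZMod 2) (Subtype.val : S → V)) := by
      intro x hx
      have := (Finsupp.mem_span_iff_linearCombination (ZMod 2) S x).mp hx
      exact this
    exact (Cardinal.mk_le_mk_of_subset this).trans Cardinal.mk_range_le
  refine h1.trans_lt ?_
  rcases finite_or_infinite S with hfin | hinf
  · haveI := Fintype.ofFinite S
    have : #(S →₀ ZMod 2) < ℵ₀ := by
      rw [Cardinal.mk_finsupp_of_fintype]
      apply Cardinal.power_lt_aleph0
      · exact Cardinal.lt_aleph0_of_finite _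
      · exact Cardinal.nat_lt_aleph0 _
    exact this.trans hV
  · rw [Cardinal.mk_finsupp_of_infinite]
    apply max_lt hS
    exact (Cardinal.lt_aleph0_of_finite _).trans hV

theorem recursion {ι : Type} (hι : #ι ≤ #V) (hV : ℵ₀ < #V) (R : ι → V → V → Prop)
    (D : Set V) (hD : D.Countable) :
    ∃ H : Submodule (ZMod 2) V, (∀ x ∈ H, x ∈ Submodule.span (ZMod 2) D → x = 0) ∧
      ∀ i, Big (R i) → ∃ p ∈ H, ∃ q, q ∉ H ⊔ Submodule.span (ZMod 2) D ∧ R i p q := by
  classical
  obtain ⟨_, _, hord⟩ := Cardinal.exists_ord_eq_type_lt ι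
  have hinit : ∀ i : ι, #(Iio i) < #V := fun i => (Cardinal.mk_Iio_lt i hord).trans_le hι
  -- the recursion
  let S0 : (i : ι) → ((j : ι) → j < i → V × V) → Set V := fun i prev =>
    D ∪ {v | ∃ j, ∃ h : j < i, v = (prev j h).1 ∨ v = (prev j h).2}
  let P : (i : ι) → ((j : ι) → j < i → V × V) → V × V → Prop := fun i prev pq =>
    R i pq.1 pq.2 ∧ pq.1 ∉ Submodule.span (ZMod 2) (S0 i prev) ∧
      pq.2 ∉ Submodule.span (ZMod 2) (S0 i prev) ∧
      pq.2 - pq.1 ∉ Submodule.span (ZMod 2) (S0 i prev)
  let step : (i : ι) → ((j : ι) → j < i → V × V) → V × V := fun i prev =>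
    if h : ∃ pq : V × V, P i prev pq then h.choose else 0
  let x : ι → V × V := (wellFounded_lt (α := ι)).fix step
  have hx : ∀ i, x i = step i (fun j _ => x j) := fun i =>
    (wellFounded_lt (α := ι)).fix_eq step i
  let W : ι → Submodule (ZMod 2) V := fun i => Submodule.span (ZMod 2) (S0 i fun j _ => x j)
  have hWcard : ∀ i, #(W i : Set V) < #V := by
    intro i
    apply mk_span_lt hV
    have h1 : S0 i (fun j _ => x j) ⊆
        D ∪ ((fun j : Iio i => (x j).1) '' univ ∪ (fun j : Iio i => (x j).2) '' univ) := by
      rintro v (hv | ⟨j, hj, hv | hv⟩)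
      · exact Or.inl hv
      · exact Or.inr (Or.inl ⟨⟨j, hj⟩, mem_univ _, hv.symm⟩)
      · exact Or.inr (Or.inr ⟨⟨j, hj⟩, mem_univ _, hv.symm⟩)
    refine (Cardinal.mk_le_mk_of_subset h1).trans_lt ?_
    have hlt : ∀ (A B : Set V), #A < #V → #B < #V → #(A ∪ B : Set V) < #V := fun A B hA hB =>
      (Cardinal.mk_union_le A B).trans_lt (Cardinal.add_lt_of_lt hV.le hA hB)
    apply hlt
    · exact (Cardinal.le_aleph0_iff_set_countable.mpr hD).trans_lt hV
    · apply hlt
      · refine Cardinal.mk_image_le.trans_lt ?_
        rw [Cardinal.mk_univ]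
        exact hinit i
      · refine Cardinal.mk_image_le.trans_lt ?_
        rw [Cardinal.mk_univ]
        exact hinit i
  -- dichotomy
  have hgood : ∀ i, Big (R i) → P i (fun j _ => x j) (x i) := by
    intro i hbig
    obtain ⟨p, q, h1, h2, h3, h4⟩ := hbig (W i) (hWcard i)
    have hex : ∃ pq : V × V, P i (fun j _ => x j) pq := ⟨(p, q), h1, h2, h3, h4⟩
    have : x i = hex.choose := by
      rw [hx i]
      exact dif_pos hex
    rw [this]
    exact hex.choose_spec
  have hdich : ∀ i, P i (fun j _ => x j) (x i) ∨ x i = 0 := by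
    intro i
    by_cases hex : ∃ pq : V × V, P i (fun j _ => x j) pq
    · left
      have : x i = hex.choose := by
        rw [hx i]
        exact dif_pos hex
      rw [this]
      exact hex.choose_spec
    · right
      rw [hx i]
      exact dif_neg hex
  -- membership in the `W i`
  have hDW : ∀ i, Submodule.span (ZMod 2) D ≤ W i := fun i =>
    Submodule.span_mono (fun v hv => Or.inl hv)
  have hpW : ∀ i j, j < i → (x j).1 ∈ W i := fun i j hj =>
    Submodule.subset_span (Or.inr ⟨j, hj, Or.inl rfl⟩)
  have hqW : ∀ i j, j < i → (x j).2 ∈ W i := fun i j hj =>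
    Submodule.subset_span (Or.inr ⟨j, hj, Or.inr rfl⟩)
  let G : Set ι := {i | P i (fun j _ => x j) (x i)}
  let pG : G → V := fun i => (x i).1
  let H : Submodule (ZMod 2) V := Submodule.span (ZMod 2) (Set.range pG)
  -- key independence: a combination with nonempty support is not in the earlier spaces
  have hkey : ∀ (c : G →₀ ZMod 2) (hc : c.support.Nonempty),
      ∃ m ∈ c.support, (∀ j ∈ c.support, j ≤ m) ∧
        Finsupp.linearCombination (ZMod 2) pG c - pG m ∈ W m.1 := by
    intro c hc
    obtain ⟨m, hm, hmax⟩ := c.support.exists_max_image (fun j => j) hc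
    refine ⟨m, hm, hmax, ?_⟩
    have hcm : c m = 1 := by
      have h0 : c m ≠ 0 := Finsupp.mem_support_iff.mp hm
      generalize c m = t at h0
      revert t
      decide
    have : Finsupp.linearCombination (ZMod 2) pG c - pG m =
        ∑ j ∈ c.support.erase m, c j • pG j := by
      rw [Finsupp.linearCombination_apply, Finsupp.sum, ← Finset.add_sum_erase _ _ hm, hcm,
        one_smul]
      abel
    rw [this]
    apply Submodule.sum_mem
    intro j hj
    apply Submodule.smul_mem
    rw [Finset.mem_erase] at hj
    have hlt : j < m := lt_of_le_of_ne (hmax j hj.2) hj.1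
    exact hpW m.1 j.1 hlt
  refine ⟨H, ?_, ?_⟩
  · intro v hv hvD
    obtain ⟨c, hc⟩ := (Finsupp.mem_span_range_iff_exists_finsupp).mp hv
    by_cases hne : c.support.Nonempty
    · exfalso
      obtain ⟨m, hm, hmax, hW⟩ := hkey c hne
      have h1 : Finsupp.linearCombination (ZMod 2) pG c = v := by
        rw [Finsupp.linearCombination_apply]; exact hc
      rw [h1] at hW
      have h2 : pG m ∈ W m.1 := by
        have := Submodule.sub_mem _ (hDW m.1 hvD) hW
        rwa [sub_sub_cancel] at this
      exact m.2.2.1 h2
    · have : c = 0 := by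
        rw [Finset.not_nonempty_iff_eq_empty, Finsupp.support_eq_empty] at hne
        exact hne
      rw [← hc, this]
      simp
  · intro i hbig
    have hi := hgood i hbig
    refine ⟨(x i).1, Submodule.subset_span ⟨⟨i, hi⟩, rfl⟩, (x i).2, ?_, hi.1⟩
    intro hmem
    rw [Submodule.mem_sup] at hmem
    obtain ⟨v, hv, d, hd, hvd⟩ := hmem
    obtain ⟨c, hc⟩ := (Finsupp.mem_span_range_iff_exists_finsupp).mp hv
    by_cases hne : c.support.Nonempty
    · obtain ⟨m, hm, hmax, hW⟩ := hkey c hne
      have h1 : Finsupp.linearCombination (ZMod 2) pG c = v := by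
        rw [Finsupp.linearCombination_apply]; exact hc
      rw [h1] at hW
      rcases lt_trichotomy m.1 i with hlt | heq | hgt
      · -- everything lies in `W i`
        have h2 : v ∈ W i := by
          rw [← hc, Finsupp.sum]
          apply Submodule.sum_mem
          intro j hj
          apply Submodule.smul_mem
          exact hpW i j.1 (lt_of_le_of_lt (hmax j hj) hlt)
        have h3 : (x i).2 ∈ W i := by
          rw [← hvd]
          exact Submodule.add_mem _ h2 (hDW i hd)
        exact hi.2.2.1 h3
      · -- `m = i`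
        have h2 : pG m = (x i).1 := by
          show (x m.1).1 = (x i).1
          rw [heq]
        have h3 : (x i).2 - (x i).1 ∈ W i := by
          rw [heq, h2] at hW
          have := Submodule.add_mem _ hW (hDW i hd)
          rw [← hvd]
          convert this using 1
          abel
        exact hi.2.2.2 h3
      · -- `i < m`
        have h2 : (x i).2 ∈ W m.1 := hqW m.1 i hgt
        have h3 : v ∈ W m.1 := by
          have := Submodule.sub_mem _ h2 (hDW m.1 hd)
          rw [← hvd, add_sub_cancel_right] at this
          exact this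
        have h4 : pG m ∈ W m.1 := by
          have := Submodule.sub_mem _ h3 hW
          rwa [sub_sub_cancel] at this
        exact m.2.2.1 h4
    · have h0 : c = 0 := by
        rw [Finset.not_nonempty_iff_eq_empty, Finsupp.support_eq_empty] at hne
        exact hne
      have hv0 : v = 0 := by rw [← hc, h0]; simp
      have h3 : (x i).2 ∈ W i := by
        rw [← hvd, hv0, zero_add]
        exact hDW i hd
      exact hi.2.2.1 h3

end

end Pool.Agent.Work.MP_27e890_gt
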