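import Pool.Agent.Work.MP_27e890_gt.Recursion

open Cardinal Set Filter Topology

namespace Pool.Agent.Work.MP_27e890_gt

/-- The Cantor group. -/
abbrev V : Type := ℕ → ZMod 2

/-- the cylinder of sequences agreeing with `x` below `n` -/
def cyl (x : V) (n : ℕ) : Set V := {y | ∀ i < n, y i = x i}

lemma mem_cyl_self (x : V) (n : ℕ) : x ∈ cyl x n := fun _ _ => rfl

lemma cyl_anti {x : V} {m n : ℕ} (h : m ≤ n) : cyl x n ⊆ cyl x m :=
  fun _ hy i hi => hy i (lt_of_lt_of_le hi h)

lemma mem_cyl_comm {x y : V} {n : ℕ} (h : y ∈ cyl x n) : x ∈ cyl y n :=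
  fun i hi => (h i hi).symm

lemma cyl_trans {x y z : V} {n : ℕ} (h : y ∈ cyl x n) (h' : z ∈ cyl y n) : z ∈ cyl x n :=
  fun i hi => (h' i hi).trans (h i hi)

lemma isOpen_cyl (x : V) (n : ℕ) : IsOpen (cyl x n) := PiNat.isOpen_cylinder _ x n

lemma isClosed_cyl (x : V) (n : ℕ) : IsClosed (cyl x n) := by
  have : cyl x n = ⋂ i ∈ Finset.range n, (fun y : V => y i) ⁻¹' {x i} := by
    ext y
    simp [cyl]
  rw [this]
  apply isClosed_biInter
  intro i _
  exact (isClosed_discrete _).preimage (continuous_apply i)

lemma exists_cyl_subset {x : V} {s : Set V} (hs : s ∈ 𝓝 x) : ∃ n, cyl x n ⊆ s := by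
  have hb := PiNat.isTopologicalBasis_cylinders (fun _ : ℕ => ZMod 2)
  obtain ⟨t, ⟨y, n, rfl⟩, hx, hts⟩ := hb.mem_nhds_iff.mp hs
  refine ⟨n, fun z hz => hts ?_⟩
  intro i hi
  exact (hz i hi).trans (hx i hi)

lemma cyl_mem_nhds (x : V) (n : ℕ) : cyl x n ∈ 𝓝 x :=
  (isOpen_cyl x n).mem_nhds (mem_cyl_self x n)

/-- A node of the scheme. -/
structure Node (A : Set V) (f : V → V) where
  y : V
  m : ℕ
  k : ℕ
  hy : y ∈ A
  hkm : k ≤ m
  hf : ∀ u ∈ A, u ∈ cyl y m → f u ∈ cyl (f y) k

variable {A : Set V} {f : V → V}

lemma exists_node (hcont : ContinuousOn f A) {y : V} (hy : y ∈ A) (k m : ℕ) :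
    ∃ ν : Node A f, ν.y = y ∧ ν.k = k ∧ m ≤ ν.m := by
  have h1 : f ⁻¹' (cyl (f y) k) ∈ 𝓝[A] y := (hcont y hy) (cyl_mem_nhds _ _)
  rw [mem_nhdsWithin_iff_exists_mem_nhds_inter] at h1
  obtain ⟨u, hu, huA⟩ := h1
  obtain ⟨n, hn⟩ := exists_cyl_subset hu
  refine ⟨⟨y, max n (max k m), k, hy, (le_max_left _ _).trans (le_max_right _ _), ?_⟩,
    rfl, rfl, (le_max_right _ _).trans (le_max_right _ _)⟩
  intro z hz hzc
  exact huA ⟨hn (cyl_anti (le_max_left _ _) hzc), hz⟩

/-- the splitting property of two nodes below a node -/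
structure Split (ν : Node A f) (c : Bool → Node A f) : Prop where
  mem : ∀ b, (c b).y ∈ cyl ν.y ν.m
  k_lt : ∀ b, ν.k + 1 ≤ (c b).k
  m_le : ∀ b, ν.m ≤ (c b).m
  sep : ∃ k', (∀ b, k' ≤ (c b).k) ∧ (∃ a < k', (c true).y a ≠ (c false).y a) ∧
    (∃ a < k', f (c true).y a ≠ f (c false).y a) ∧
    (∃ a < k', (f (c true).y - (c true).y) a ≠ (f (c false).y - (c false).y) a)

lemma exists_split (hcont : ContinuousOn f A) (hinj : InjOn f A)
    (hg : ∀ y ∈ A, ∀ m, ∃ u ∈ A, u ∈ cyl y m ∧ f u - u ≠ f y - y) (ν : Node A f) :
    ∃ c : Bool → Node A f, Split ν c := by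
  obtain ⟨u, huA, huc, hne⟩ := hg ν.y ν.hy ν.m
  have hne1 : u ≠ ν.y := by
    rintro rfl
    exact hne rfl
  have hne2 : f u ≠ f ν.y := fun h => hne1 (hinj huA ν.hy h)
  obtain ⟨a1, ha1⟩ := Function.ne_iff.mp hne1
  obtain ⟨a2, ha2⟩ := Function.ne_iff.mp hne2
  obtain ⟨a3, ha3⟩ := Function.ne_iff.mp hne
  set k' := max (ν.k + 1) (max (a1 + 1) (max (a2 + 1) (a3 + 1))) with hk'
  obtain ⟨ν1, h1y, h1k, h1m⟩ := exists_node hcont huA k' ν.m
  obtain ⟨ν0, h0y, h0k, h0m⟩ := exists_node hcont ν.hy k' ν.m
  refine ⟨fun b => if b then ν1 else ν0, ?_, ?_, ?_, k', ?_, ⟨a1, ?_, ?_⟩, ⟨a2, ?_, ?_⟩,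
    ⟨a3, ?_, ?_⟩⟩
  · intro b
    cases b
    · simp only [Bool.false_eq_true, if_false, h0y]
      exact mem_cyl_self _ _
    · simp only [if_true, h1y]
      exact huc
  · intro b
    cases b
    · simp only [Bool.false_eq_true, if_false, h0k]
      exact le_max_left _ _
    · simp only [if_true, h1k]
      exact le_max_left _ _
  · intro b
    cases b
    · simpa using h0m
    · simpa using h1m
  · intro b
    cases b
    · simp [h0k]
    · simp [h1k]
  · exact lt_of_lt_of_le (Nat.lt_succ_self _) ((le_max_left _ _).trans (le_max_right _ _))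
  · simpa [h0y, h1y] using ha1
  · exact lt_of_lt_of_le (Nat.lt_succ_self _)
      (((le_max_left _ _).trans (le_max_right _ _)).trans (le_max_right _ _))
  · simpa [h0y, h1y] using ha2
  · exact lt_of_lt_of_le (Nat.lt_succ_self _)
      (((le_max_right _ _).trans (le_max_right _ _)).trans (le_max_right _ _))
  · simpa [h0y, h1y] using ha3

/-- the branch of nodes along `b` -/
def branch (child : Node A f → Bool → Node A f) (root : Node A f) (b : ℕ → Bool) :
    ℕ → Node A f
  | 0 => root
  | n + 1 => child (branch child root b n) (b n)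

section branch

variable {child : Node A f → Bool → Node A f} (hch : ∀ ν, Split ν (child ν)) (root : Node A f)
  (b : ℕ → Bool)

include hch

lemma branch_k (n : ℕ) : n ≤ (branch child root b n).k := by
  induction n with
  | zero => exact Nat.zero_le _
  | succ n ih =>
    have := (hch (branch child root b n)).k_lt (b n)
    exact (Nat.succ_le_succ ih).trans this

lemma branch_m_mono {n j : ℕ} (h : n ≤ j) :
    (branch child root b n).m ≤ (branch child root b j).m := by
  induction j, h using Nat.le_induction with
  | base => exact le_rfl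
  | succ j _ ih => exact ih.trans ((hch (branch child root b j)).m_le (b j))

lemma branch_mem {n j : ℕ} (h : n ≤ j) :
    (branch child root b j).y ∈ cyl (branch child root b n).y (branch child root b n).m := by
  induction j, h using Nat.le_induction with
  | base => exact mem_cyl_self _ _
  | succ j hj ih =>
    refine cyl_trans ih ?_
    have := (hch (branch child root b j)).mem (b j)
    exact cyl_anti (branch_m_mono hch root b hj) this

lemma branch_f_mem {n j : ℕ} (h : n ≤ j) :
    f (branch child root b j).y ∈ cyl (f (branch child root b n).y) (branch child root b n).k :=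
  (branch child root b n).hf _ (branch child root b j).hy (branch_mem hch root b h)

/-- limit point -/
def limP (child : Node A f → Bool → Node A f) (root : Node A f) (b : ℕ → Bool) : V :=
  fun i => (branch child root b (i + 1)).y i

/-- limit of the images -/
def limQ (child : Node A f → Bool → Node A f) (root : Node A f) (b : ℕ → Bool) : V :=
  fun i => f (branch child root b (i + 1)).y i

lemma limP_mem (n : ℕ) :
    limP child root b ∈ cyl (branch child root b n).y (branch child root b n).m := by
  intro i hi
  have h1 := branch_mem hch root b (le_max_left n (i + 1)) i hi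
  have hk : i < (branch child root b (i + 1)).m :=
    lt_of_lt_of_le (Nat.lt_succ_self i)
      ((branch_k hch root b (i + 1)).trans (branch child root b (i + 1)).hkm)
  have h2 := branch_mem hch root b (le_max_right n (i + 1)) i hk
  show (branch child root b (i + 1)).y i = _
  rw [← h1, ← h2]

lemma limQ_mem (n : ℕ) :
    limQ child root b ∈ cyl (f (branch child root b n).y) (branch child root b n).k := by
  intro i hi
  have h1 := branch_f_mem hch root b (le_max_left n (i + 1)) i hi
  have hk : i < (branch child root b (i + 1)).k :=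
    lt_of_lt_of_le (Nat.lt_succ_self i) (branch_k hch root b (i + 1))
  have h2 := branch_f_mem hch root b (le_max_right n (i + 1)) i hk
  show f (branch child root b (i + 1)).y i = _
  rw [← h1, ← h2]

omit hch in
lemma branch_congr {b b' : ℕ → Bool} (n : ℕ) (h : ∀ i < n, b i = b' i) :
    branch child root b n = branch child root b' n := by
  induction n with
  | zero => rfl
  | succ n ih =>
    show child _ _ = child _ _
    rw [ih (fun i hi => h i (Nat.lt_succ_of_lt hi)), h n (Nat.lt_succ_self n)]

/-- separation of two different branches -/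
lemma separation {b b' : ℕ → Bool} (hne : b ≠ b') :
    limP child root b ≠ limP child root b' ∧ limQ child root b ≠ limQ child root b' ∧
      limQ child root b - limP child root b ≠ limQ child root b' - limP child root b' := by
  -- wlog the first difference is `true` for `b`
  have main : ∀ (b b' : ℕ → Bool) (n : ℕ), (∀ i < n, b i = b' i) → b n = true → b' n = false →
      limP child root b ≠ limP child root b' ∧ limQ child root b ≠ limQ child root b' ∧
      limQ child root b - limP child root b ≠ limQ child root b' - limP child root b' := by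
    intro b b' n hlt hb hb'
    have hcong := branch_congr (child := child) root n hlt
    set ν := branch child root b n with hν
    have e1 : branch child root b (n + 1) = child ν true := by
      show child (branch child root b n) (b n) = _
      rw [hb]
    have e2 : branch child root b' (n + 1) = child ν false := by
      show child (branch child root b' n) (b' n) = _
      rw [← hcong, hb']
    obtain ⟨k', hk', ⟨a1, ha1, h1⟩, ⟨a2, ha2, h2⟩, ⟨a3, ha3, h3⟩⟩ := (hch ν).sep
    have P1 := limP_mem hch root b (n + 1)
    have P2 := limP_mem hch root b' (n + 1)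
    have Q1 := limQ_mem hch root b (n + 1)
    have Q2 := limQ_mem hch root b' (n + 1)
    rw [e1] at P1 Q1
    rw [e2] at P2 Q2
    have k1 : ∀ {a}, a < k' → a < (child ν true).k := fun h => lt_of_lt_of_le h (hk' true)
    have k2 : ∀ {a}, a < k' → a < (child ν false).k := fun h => lt_of_lt_of_le h (hk' false)
    have m1 : ∀ {a}, a < k' → a < (child ν true).m := fun h =>
      lt_of_lt_of_le (k1 h) (child ν true).hkm
    have m2 : ∀ {a}, a < k' → a < (child ν false).m := fun h =>
      lt_of_lt_of_le (k2 h) (child ν false).hkm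
    refine ⟨fun h => h1 ?_, fun h => h2 ?_, fun h => h3 ?_⟩
    · rw [← P1 a1 (m1 ha1), ← P2 a1 (m2 ha1), h]
    · rw [← Q1 a2 (k1 ha2), ← Q2 a2 (k2 ha2), h]
    · have := congrFun h a3
      simp only [Pi.sub_apply] at this ⊢
      rw [← P1 a3 (m1 ha3), ← P2 a3 (m2 ha3), ← Q1 a3 (k1 ha3), ← Q2 a3 (k2 ha3)]
      exact this
  have hex : ∃ n, b n ≠ b' n := Function.ne_iff.mp hne
  classical
  set n := Nat.find hex with hn
  have hlt : ∀ i < n, b i = b' i := fun i hi => by
    have := Nat.find_min hex hi
    push Not at this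
    exact this
  have hnn : b n ≠ b' n := Nat.find_spec hex
  cases hb : b n with
  | true =>
    have hb' : b' n = false := by
      rw [hb] at hnn
      cases h : b' n with
      | true => exact absurd h.symm hnn
      | false => rfl
    exact main b b' n hlt hb hb'
  | false =>
    have hb' : b' n = true := by
      rw [hb] at hnn
      cases h : b' n with
      | true => rfl
      | false => exact absurd h.symm hnn
    obtain ⟨h1, h2, h3⟩ := main b' b n (fun i hi => (hlt i hi).symm) hb' hb
    exact ⟨h1.symm, h2.symm, h3.symm⟩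

end branch

/-- The Cantor scheme lemma. -/
theorem scheme (hA : A.Nonempty) (hcont : ContinuousOn f A) (hinj : InjOn f A)
    (hg : ∀ y ∈ A, ∀ m, ∃ u ∈ A, u ∈ cyl y m ∧ f u - u ≠ f y - y) :
    ∃ P Q : (ℕ → Bool) → V, Function.Injective P ∧ Function.Injective Q ∧
      Function.Injective (fun b => Q b - P b) ∧
      ∀ b n, ∃ y ∈ A, ∃ m, n ≤ m ∧ P b ∈ cyl y m ∧ Q b ∈ cyl (f y) n ∧
        ∀ u ∈ A, u ∈ cyl y m → f u ∈ cyl (f y) n := by
  obtain ⟨y0, hy0⟩ := hA
  obtain ⟨root, -, -, -⟩ := exists_node hcont hy0 0 0
  choose child hch using fun ν : Node A f => exists_split hcont hinj hg ν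
  refine ⟨limP child root, limQ child root, ?_, ?_, ?_, ?_⟩
  · intro b b' h
    by_contra hne
    exact (separation hch root hne).1 h
  · intro b b' h
    by_contra hne
    exact (separation hch root hne).2.1 h
  · intro b b' h
    by_contra hne
    exact (separation hch root hne).2.2 h
  · intro b n
    have hk := branch_k hch root b n
    refine ⟨(branch child root b n).y, (branch child root b n).hy, (branch child root b n).m,
      hk.trans (branch child root b n).hkm, limP_mem hch root b n,
      cyl_anti hk (limQ_mem hch root b n), fun u hu huc => cyl_anti hk ?_⟩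
    exact (branch child root b n).hf u hu huc

end Pool.Agent.Work.MP_27e890_gt
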