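import Pool.Agent.Work.MP_27e890_gt.Scheme

open Cardinal Set Filter Topology

namespace Pool.Agent.Work.MP_27e890_gt

/-! ### Cardinalities -/

lemma mk_V : #V = 𝔠 := by
  have h2 : #(ZMod 2) = 2 := by
    rw [Cardinal.mk_fintype]
    simp [ZMod.card]
  show #(ℕ → ZMod 2) = 𝔠
  rw [← Cardinal.power_def, h2, Cardinal.mk_nat, Cardinal.two_power_aleph0]

lemma mk_seqV : #(ℕ → V) = 𝔠 := by
  rw [← Cardinal.power_def, mk_V, Cardinal.mk_nat, Cardinal.continuum_power_aleph0]

abbrev Req : Type := ((ℕ → V) × (ℕ → V) × V × ℕ) ⊕ (ℕ → Option (ℕ → V))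

lemma mk_Req : #Req ≤ #V := by
  have h1 : #((ℕ → V) × (ℕ → V) × V × ℕ) ≤ 𝔠 := by
    rw [Cardinal.mk_prod, Cardinal.mk_prod, Cardinal.mk_prod]
    simp only [Cardinal.lift_id, mk_seqV, mk_V, Cardinal.mk_nat]
    rw [Cardinal.continuum_mul_aleph0, Cardinal.continuum_mul_self, Cardinal.continuum_mul_self]
  have h2 : #(ℕ → Option (ℕ → V)) ≤ 𝔠 := by
    rw [← Cardinal.power_def, Cardinal.mk_option, mk_seqV, Cardinal.mk_nat]
    have h3 : (𝔠 : Cardinal) + 1 = 𝔠 :=
      Cardinal.add_one_eq Cardinal.aleph0_le_continuum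
    rw [h3, Cardinal.continuum_power_aleph0]
  rw [Cardinal.mk_sum, Cardinal.lift_id, Cardinal.lift_id, mk_V]
  exact Cardinal.add_le_of_le Cardinal.aleph0_le_continuum h1 h2

/-! ### The dense countable subgroup -/

/-- finitely supported sequences -/
noncomputable def D0 : Submodule (ZMod 2) V :=
  LinearMap.range (Finsupp.lcoeFun : (ℕ →₀ ZMod 2) →ₗ[ZMod 2] (ℕ → ZMod 2))

/-- the constant sequence `1` -/
def z : V := fun _ => 1

lemma countable_D0 : (D0 : Set V).Countable := by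
  have : (D0 : Set V) = Set.range (fun c : ℕ →₀ ZMod 2 => (c : ℕ → ZMod 2)) := by
    ext x
    constructor
    · rintro ⟨c, hc⟩
      exact ⟨c, hc⟩
    · rintro ⟨c, hc⟩
      exact ⟨c, hc⟩
  rw [this]
  exact Set.countable_range _

lemma exists_D0_mem_cyl (x : V) (n : ℕ) : ∃ d ∈ D0, d ∈ cyl x n := by
  classical
  refine ⟨fun i => if i < n then x i else 0, ?_, ?_⟩
  · refine ⟨Finsupp.onFinset (Finset.range n) (fun i => if i < n then x i else 0) ?_, ?_⟩
    · intro i hi
      by_contra h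
      rw [Finset.mem_range] at h
      exact hi (if_neg h)
    · rfl
  · intro i hi
    exact if_pos hi

lemma z_not_mem : z ∉ D0 := by
  rintro ⟨c, hc⟩
  obtain ⟨n, hn⟩ := Infinite.exists_notMem_finset c.support
  have h1 : c n = 0 := Finsupp.notMem_support_iff.mp hn
  have h2 : c n = 1 := congrFun hc n
  rw [h1] at h2
  exact absurd h2 (by decide)

/-- the countable set that `H` must avoid -/
noncomputable def D1 : Set V := (D0 : Set V) ∪ {z}

lemma countable_D1 : D1.Countable := countable_D0.union (Set.countable_singleton _)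

/-! ### Big relations -/

/-- the limit relation determined by two sequences -/
def LimRel (s t : ℕ → V) (x : V) (m : ℕ) (p q : V) : Prop :=
  p ∈ cyl x m ∧ p ∈ closure (Set.range s) ∧ Tendsto t (comap s (𝓝 p)) (𝓝 q)

lemma union3_lt {α : Type} {A B C : Set α} (hα : ℵ₀ ≤ #α) (hA : #A < #α) (hB : #B < #α)
    (hC : #C < #α) : #(A ∪ (B ∪ C) : Set α) < #α :=
  (Cardinal.mk_union_le _ _).trans_lt (Cardinal.add_lt_of_lt hα hA
    ((Cardinal.mk_union_le _ _).trans_lt (Cardinal.add_lt_of_lt hα hB hC)))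

lemma big_limRel {A : Set V} {f : V → V} (hA : A.Nonempty) (hcont : ContinuousOn f A)
    (hinj : InjOn f A)
    (hg : ∀ y ∈ A, ∀ m, ∃ u ∈ A, u ∈ cyl y m ∧ f u - u ≠ f y - y)
    {x : V} {m : ℕ} (hAx : A ⊆ cyl x m) {s : ℕ → V} (hsA : ∀ k, s k ∈ A)
    (hs : A ⊆ closure (Set.range s)) : Big (LimRel s (fun k => f (s k)) x m) := by
  obtain ⟨P, Q, hP, hQ, hQP, hlim⟩ := scheme hA hcont hinj hg
  intro W hW
  rw [mk_V] at hW
  have hB : #(ℕ → Bool) = 𝔠 := by
    rw [← Cardinal.power_def, Cardinal.mk_bool, Cardinal.mk_nat, Cardinal.two_power_aleph0]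
  have hpre : ∀ F : (ℕ → Bool) → V, Function.Injective F → #(F ⁻¹' W) < #(ℕ → Bool) := by
    intro F hF
    rw [hB]
    exact (Cardinal.mk_preimage_of_injective F W hF).trans_lt hW
  have hun := union3_lt (by rw [hB]; exact Cardinal.aleph0_le_continuum)
    (hpre P hP) (hpre Q hQ) (hpre _ hQP)
  obtain ⟨b, hb⟩ : ∃ b, b ∉ (P ⁻¹' W ∪ (Q ⁻¹' W ∪ (fun b => Q b - P b) ⁻¹' W)) := by
    by_contra hcon
    push Not at hcon
    have : (P ⁻¹' W ∪ (Q ⁻¹' W ∪ (fun b => Q b - P b) ⁻¹' W)) = Set.univ := by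
      ext b; simp only [Set.mem_univ, iff_true]; exact hcon b
    rw [this, Cardinal.mk_univ] at hun
    exact lt_irrefl _ hun
  simp only [Set.mem_union, Set.mem_preimage, not_or] at hb
  refine ⟨P b, Q b, ⟨?_, ?_, ?_⟩, hb.1, hb.2.1, hb.2.2⟩
  · obtain ⟨y, hy, m', hm', hPb, -, -⟩ := hlim b m
    exact cyl_trans (hAx hy) (cyl_anti hm' hPb)
  · rw [mem_closure_iff_nhds]
    intro t ht
    obtain ⟨n, hn⟩ := exists_cyl_subset ht
    obtain ⟨y, hy, m', hm', hPb, -, -⟩ := hlim b n
    have h1 := mem_closure_iff_nhds.mp (hs hy) (cyl y m') (cyl_mem_nhds y m')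
    obtain ⟨u, hu1, k, rfl⟩ := h1
    refine ⟨s k, hn ?_, k, rfl⟩
    exact cyl_anti hm' (cyl_trans (mem_cyl_comm hPb) hu1)
  · rw [tendsto_def]
    intro t ht
    obtain ⟨n, hn⟩ := exists_cyl_subset ht
    obtain ⟨y, hy, m', hm', hPb, hQb, hf⟩ := hlim b n
    rw [mem_comap]
    refine ⟨cyl (P b) m', cyl_mem_nhds _ _, ?_⟩
    intro k hk
    apply hn
    have h1 : s k ∈ cyl y m' := cyl_trans hPb hk
    have h2 := hf (s k) (hsA k) h1
    exact cyl_trans (mem_cyl_comm hQb) h2

/-- the closed set coded by an optional sequence -/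
def codeSet : Option (ℕ → V) → Set V
  | none => ∅
  | some s => closure (Set.range s)

lemma exists_code {K : Set V} (hK : IsClosed K) : ∃ c, codeSet c = K := by
  rcases K.eq_empty_or_nonempty with rfl | hne
  · exact ⟨none, rfl⟩
  · haveI : Nonempty K := hne.to_subtype
    obtain ⟨u, hu⟩ := TopologicalSpace.exists_dense_seq K
    refine ⟨some (fun n => (u n : V)), ?_⟩
    show closure (Set.range fun n => (u n : V)) = K
    apply Set.Subset.antisymm
    · apply hK.closure_subset_iff.mpr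
      rintro _ ⟨n, rfl⟩
      exact (u n).2
    · intro x hx
      have h1 : (⟨x, hx⟩ : K) ∈ closure (Set.range u) := hu _
      have h2 := image_closure_subset_closure_image (continuous_subtype_val (p := (· ∈ K)))
        (Set.mem_image_of_mem _ h1)
      rw [← Set.range_comp] at h2
      exact h2

lemma big_avoid {K : ℕ → Set V} (hK : ∀ n, IsClosed (K n))
    (hunc : ¬ ({p : V | ∀ n, p ∉ K n}).Countable) :
    Big (fun p _ => ∀ n, p ∉ K n) := by
  intro W hW
  set G : Set V := {p : V | ∀ n, p ∉ K n} with hG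
  have hGm : @MeasurableSet V (borel V) G := by
    letI : MeasurableSpace V := borel V
    haveI : BorelSpace V := ⟨rfl⟩
    have : G = ⋂ n, (K n)ᶜ := by
      ext p; simp [hG]
    rw [this]
    exact MeasurableSet.iInter fun n => (hK n).measurableSet.compl
  have hGcard : #G = 𝔠 := by
    letI : MeasurableSpace V := borel V
    haveI : BorelSpace V := ⟨rfl⟩
    haveI : StandardBorelSpace G := hGm.standardBorel
    have hnc : ¬ Countable G := fun h => hunc (Set.countable_coe_iff.mp h)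
    have e := PolishSpace.measurableEquivNatBoolOfNotCountable hnc
    rw [Cardinal.mk_congr e.toEquiv, ← Cardinal.power_def, Cardinal.mk_bool, Cardinal.mk_nat,
      Cardinal.two_power_aleph0]
  have h1 : ∃ p ∈ G, p ∉ W := by
    by_contra hcon
    push Not at hcon
    have : #G ≤ #W := Cardinal.mk_le_mk_of_subset hcon
    rw [hGcard] at this
    rw [mk_V] at hW
    exact absurd hW (not_lt.mpr this)
  obtain ⟨p, hpG, hpW⟩ := h1
  have h2 : #((W ∪ ((fun q => q - p) ⁻¹' W ∪ ∅) : Set V)) < #V := by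
    apply union3_lt
    · rw [mk_V]; exact Cardinal.aleph0_le_continuum
    · exact hW
    · exact (Cardinal.mk_preimage_of_injective _ W (sub_left_injective)).trans_lt hW
    · rw [Cardinal.mk_eq_zero, mk_V]
      exact Cardinal.continuum_pos
  obtain ⟨q, hq⟩ : ∃ q, q ∉ (W ∪ ((fun q => q - p) ⁻¹' W ∪ ∅) : Set V) := by
    by_contra hcon
    push Not at hcon
    have : (W ∪ ((fun q => q - p) ⁻¹' W ∪ ∅) : Set V) = Set.univ := by
      ext b; simp only [Set.mem_univ, iff_true]; exact hcon b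
    rw [this, Cardinal.mk_univ] at h2
    exact lt_irrefl _ h2
  simp only [Set.mem_union, Set.mem_preimage, Set.mem_empty_iff_false, or_false, not_or] at hq
  exact ⟨p, q, hpG, hpW, hq.1, hq.2⟩

/-- The generic subgroup. -/
theorem exists_H : ∃ H : Submodule (ZMod 2) V,
    (∀ x ∈ H, x ∈ Submodule.span (ZMod 2) D1 → x = 0) ∧
    (∀ K : ℕ → Set V, (∀ n, IsClosed (K n)) → ¬ ({p : V | ∀ n, p ∉ K n}).Countable →
      ∃ p ∈ H, ∀ n, p ∉ K n) ∧
    (∀ s t x m, Big (LimRel s t x m) →
      ∃ p ∈ H, ∃ q, q ∉ H ⊔ Submodule.span (ZMod 2) D1 ∧ LimRel s t x m p q) := by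
  let R : Req → V → V → Prop := fun r =>
    match r with
    | Sum.inl (s, t, x, m) => LimRel s t x m
    | Sum.inr c => fun p _ => ∀ n, p ∉ codeSet (c n)
  obtain ⟨H, h1, h2⟩ := recursion (V := V) mk_Req
    (by rw [mk_V]; exact Cardinal.aleph0_lt_continuum) R D1 countable_D1
  refine ⟨H, h1, ?_, ?_⟩
  · intro K hK hunc
    choose c hc using fun n => exists_code (hK n)
    have hbig : Big (R (Sum.inr c)) := by
      show Big (fun p _ => ∀ n, p ∉ codeSet (c n))
      simp only [hc]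
      exact big_avoid hK hunc
    obtain ⟨p, hp, q, -, hR⟩ := h2 (Sum.inr c) hbig
    refine ⟨p, hp, fun n => ?_⟩
    have := hR n
    rwa [hc] at this
  · intro s t x m hbig
    exact h2 (Sum.inl (s, t, x, m)) hbig

end Pool.Agent.Work.MP_27e890_gt
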